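import Pool.Agent.N977.P.Stm2
import Pool.Agent.N977.Q.Tw4

/-!
# Project NSP, part THR (helper391): no breakdown for `p ≤ 1` and solutions which do not depend on the
third variable, class `LowE`. The proofs are those of helper977 for the class `Low`
(`Q/Th2`, `Q/Th3`, `Q/Th5`, `Q/Th7`, `Q/Tw3`, `Q/Tw4`).
-/

set_option autoImplicit false
set_option linter.unusedVariables false
set_option linter.unusedSectionVars false

open MeasureTheory Set Filter Topology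
open scoped ContDiff ComplexConjugate

namespace Pool.Agent.N391.NSP

open H459R3.NS Pool.Agent.N977.Q
open Pool.Agent.N977.S (LowE)
open Pool.Agent.N977.K (SolK cmp)

section th2

variable {u : V → V}
variable {σ π' δ : ℝ} {K : (V → V) → (V → V) → V → V}

theorem test_Pn (hK : LowE σ π' δ K) (hu : SPV u) (n : ℕ) :
    TT K u u (Pn n u) = ∑ k ∈ Bl n, tk K u k := by
  have hKs := hK.smooth _ _ hu hu
  unfold TT tk
  rw [Finset.sum_comm]
  refine Finset.sum_congr rfl fun i _ => ?_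
  unfold Pn
  simp_rw [Finset.mul_sum]
  rw [integral_finsetSum _ fun k _ => ((spv_sp hKs i).mul (Rm_sp k _)).int]
  refine Finset.sum_congr rfl fun k _ => ?_
  have h1 := int_Rm_mul k (fr (fun y => u y i) k) (spv_sp hKs i).cont
  have h2 : (∫ x in cube, K u u x i * Rm k (fr (fun y => u y i) k) x)
      = ∫ x in cube, Rm k (fr (fun y => u y i) k) x * K u u x i := by
    congr 1; funext x; ring
  rw [h2, h1, fr_neg' (spv_sp hKs i).cont]
  rw [← Complex.conj_re, map_mul, Complex.conj_conj]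

theorem TT_add_mid (hK : LowE σ π' δ K) {u v v' w : V → V} (hu : SPV u) (hv : SPV v)
    (hv' : SPV v') (hw : SPV w) :
    TT K u (fun x => v x + v' x) w = TT K u v w + TT K u v' w := by
  unfold TT
  rw [hK.add_right u v v' hu hv hv', ← Finset.sum_add_distrib]
  refine Finset.sum_congr rfl fun i _ => ?_
  simp only [Pi.add_apply, add_mul]
  exact integral_add ((spv_sp (hK.smooth _ _ hu hv) i).mul (spv_sp hw i)).int
    ((spv_sp (hK.smooth _ _ hu hv') i).mul (spv_sp hw i)).int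

theorem TT_add_left (hK : LowE σ π' δ K) {u u' v w : V → V} (hu : SPV u) (hu' : SPV u')
    (hv : SPV v) (hw : SPV w) :
    TT K (fun x => u x + u' x) v w = TT K u v w + TT K u' v w := by
  unfold TT
  rw [hK.add_left u u' v hu hu' hv, ← Finset.sum_add_distrib]
  refine Finset.sum_congr rfl fun i _ => ?_
  simp only [Pi.add_apply, add_mul]
  exact integral_add ((spv_sp (hK.smooth _ _ hu hv) i).mul (spv_sp hw i)).int
    ((spv_sp (hK.smooth _ _ hu' hv) i).mul (spv_sp hw i)).int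

/-- the flux of energy through the frequency `2 ^ n` -/
theorem flux_eq (hK : LowE σ π' δ K) (hu : SPV u) (n : ℕ) :
    ∑ k ∈ Bl n, tk K u k = TT K (Pn n u) (Qn n u) (Pn n u) + TT K (Qn n u) (Qn n u) (Pn n u) := by
  have hP := Pn_spv n u
  have hQ := Qn_spv n hu
  have e : u = fun x => Pn n u x + Qn n u x := by
    funext x; unfold Qn; abel
  rw [← test_Pn hK hu]
  have h1 : TT K u u (Pn n u) = TT K u (Pn n u) (Pn n u) + TT K u (Qn n u) (Pn n u) := by
    conv_lhs => rw [show TT K u u (Pn n u) = TT K u (fun x => Pn n u x + Qn n u x) (Pn n u) by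
      rw [← e]]
    exact TT_add_mid hK hu hP hQ hP
  have h2 : TT K u (Pn n u) (Pn n u) = 0 := hK.energy _ _ hu hP
  have h3 : TT K u (Qn n u) (Pn n u)
      = TT K (Pn n u) (Qn n u) (Pn n u) + TT K (Qn n u) (Qn n u) (Pn n u) := by
    have h4 := TT_add_left hK hP hQ hQ hP
    rw [← e] at h4
    exact h4
  rw [h1, h2, h3, zero_add]

end th2

section th3

variable {u : V → V} {n M h : ℕ}
variable {p δ : ℝ} {K : (V → V) → (V → V) → V → V}

/-- the estimate of the flux -/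
theorem flux_le (hK : LowE (2 * h) p δ K) (hp : 0 ≤ p) (hδ : 0 ≤ δ) (hu : SPV u) (hM : h ≤ M + 1) :
    |∑ k ∈ Bl n, tk K u k| ≤ δ * 5 ^ (2 * M + 2 * h + 4) * LL n ^ p
      * (√(XX n 1 0 u) + √(ZZ n 0 0 u)) * (√(XX n M h u) * √(ZZ n M h u)) := by
  have hP := Pn_spv n u
  have hQ := Qn_spv n hu
  have h2n : (0 : ℝ) < 2 ^ n := by positivity
  have hL := one_le_LL n
  have hMc : ((M + 1 - h : ℕ) : ℝ) = (M : ℝ) + 1 - h := by
    rw [Nat.cast_sub hM]; push_cast; ring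
  have hMc0 : 0 ≤ ((M + 1 - h : ℕ) : ℝ) := Nat.cast_nonneg _
  rw [flux_eq hK hu n]
  have b1 := hK.bound _ _ _ hP hQ hP ((1 + 0 : ℕ) : ℝ) (-((M + 1 - h : ℕ) : ℝ)) ((M + h : ℕ) : ℝ)
    0 0 p (by rw [hMc]; push_cast; ring) le_rfl le_rfl hp (by ring)
  have b2 := hK.bound _ _ _ hQ hQ hP (-((0 + 1 - 0 : ℕ) : ℝ)) (-((M + 1 - h : ℕ) : ℝ))
    ((M + h + 2 : ℕ) : ℝ) 0 0 p (by rw [hMc]; push_cast; ring) le_rfl le_rfl hp (by ring)
  have n1 := Hn_Pn (M := 1) (h := 0) (n := n) hu (le_refl (0 : ℝ))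
  have n2 := Hn_Pn (M := M) (h := h) (n := n) hu hp
  have n3 := Hn_Pn2 (M := M) (h := h) (n := n) hu hp
  have n4 := Hn_Qn (M := M) (h := h) (n := n) hu hM
  have n5 := Hn_Qn (M := 0) (h := 0) (n := n) hu (by norm_num)
  rw [Real.rpow_zero, one_mul, pow_one] at n1
  rw [zero_add, pow_one] at n5
  set a := Hn (-((M + 1 - h : ℕ) : ℝ)) 0 (Qn n u) with ha
  set b := Hn (-((0 + 1 - 0 : ℕ) : ℝ)) 0 (Qn n u) with hb
  set X := √(XX n M h u) with hX
  set Z := √(ZZ n M h u) with hZ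
  set G := √(XX n 1 0 u) with hG
  set G' := √(ZZ n 0 0 u) with hG'
  have ha0 : 0 ≤ a := Hn_nonneg _ _ _
  have hb0 : 0 ≤ b := Hn_nonneg _ _ _
  have hX0 : 0 ≤ X := Real.sqrt_nonneg _
  have hZ0 : 0 ≤ Z := Real.sqrt_nonneg _
  have hG0 : 0 ≤ G := Real.sqrt_nonneg _
  have hG'0 : 0 ≤ G' := Real.sqrt_nonneg _
  have hbe : b * 2 ^ n = G' := by simpa using n5
  have five : ∀ {x : ℝ}, x ≤ ((2 * M + 2 * h + 4 : ℕ) : ℝ) →
      (5 : ℝ) ^ x ≤ 5 ^ (2 * M + 2 * h + 4) := fun hx => by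
    rw [← Real.rpow_natCast]
    exact Real.rpow_le_rpow_of_exponent_le (by norm_num) hx
  have hh0 : (0 : ℝ) ≤ h := Nat.cast_nonneg h
  have c1 : |TT K (Pn n u) (Qn n u) (Pn n u)|
      ≤ δ * 5 ^ (2 * M + 2 * h + 4) * (LL n ^ p * (G * (X * Z))) := by
    refine b1.trans ?_
    have f1 : (5 : ℝ) ^ (|((1 + 0 : ℕ) : ℝ)| + |-((M + 1 - h : ℕ) : ℝ)| + |((M + h : ℕ) : ℝ)|)
        ≤ 5 ^ (2 * M + 2 * h + 4) := by
      apply five
      rw [abs_neg, abs_of_nonneg hMc0, abs_of_nonneg (Nat.cast_nonneg _),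
        abs_of_nonneg (Nat.cast_nonneg _), hMc]
      push_cast
      linarith
    have f2 : Hn ((1 + 0 : ℕ) : ℝ) 0 (Pn n u) * a * Hn ((M + h : ℕ) : ℝ) p (Pn n u)
        ≤ LL n ^ p * (G * (X * Z)) := by
      calc Hn ((1 + 0 : ℕ) : ℝ) 0 (Pn n u) * a * Hn ((M + h : ℕ) : ℝ) p (Pn n u)
          ≤ (2 ^ n * G) * a * (LL n ^ p * (2 ^ n) ^ M * X) :=
            mul_le_mul (mul_le_mul_of_nonneg_right n1 ha0) n2 (Hn_nonneg _ _ _) (by positivity)
        _ = LL n ^ p * (G * (X * (a * (2 ^ n) ^ (M + 1)))) := by rw [pow_succ]; ring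
        _ = _ := by rw [n4]
    exact mul_le_mul (mul_le_mul_of_nonneg_left f1 hδ) f2
      (mul_nonneg (mul_nonneg (Hn_nonneg _ _ _) ha0) (Hn_nonneg _ _ _)) (by positivity)
  have c2 : |TT K (Qn n u) (Qn n u) (Pn n u)|
      ≤ δ * 5 ^ (2 * M + 2 * h + 4) * (LL n ^ p * (G' * (X * Z))) := by
    refine b2.trans ?_
    have f1 : (5 : ℝ) ^ (|-((0 + 1 - 0 : ℕ) : ℝ)| + |-((M + 1 - h : ℕ) : ℝ)|
        + |((M + h + 2 : ℕ) : ℝ)|) ≤ 5 ^ (2 * M + 2 * h + 4) := by
      apply five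
      rw [abs_neg, abs_neg, abs_of_nonneg hMc0, abs_of_nonneg (Nat.cast_nonneg _),
        abs_of_nonneg (Nat.cast_nonneg _), hMc]
      push_cast
      linarith
    have f2 : b * a * Hn ((M + h + 2 : ℕ) : ℝ) p (Pn n u) ≤ LL n ^ p * (G' * (X * Z)) := by
      calc b * a * Hn ((M + h + 2 : ℕ) : ℝ) p (Pn n u)
          ≤ b * a * (LL n ^ p * (2 ^ n) ^ (M + 2) * X) :=
            mul_le_mul_of_nonneg_left n3 (mul_nonneg hb0 ha0)
        _ = LL n ^ p * ((b * 2 ^ n) * (X * (a * (2 ^ n) ^ (M + 1)))) := by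
            rw [pow_succ _ (M + 1)]; ring
        _ = _ := by rw [n4, hbe]
    exact mul_le_mul (mul_le_mul_of_nonneg_left f1 hδ) f2
      (mul_nonneg (mul_nonneg hb0 ha0) (Hn_nonneg _ _ _)) (by positivity)
  refine (abs_add_le _ _).trans ((add_le_add c1 c2).trans (le_of_eq ?_))
  ring

end th3

section th5

variable {ν T σ π' δ : ℝ} {u : ℝ → V → V} {q : ℝ → V → ℝ} {K : (V → V) → (V → V) → V → V}

theorem EE_deriv (hK : LowE σ π' δ K) (hs : SolK ν T K u q) {t : ℝ} (ht : t ∈ Ioo 0 T) :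
    HasDerivAt (fun s => EE 0 (u s)) (-(2 * ν * (2 * Real.pi) ^ 2 * EE 1 (u t))) t := by
  have htI := Ioo_subset_Ico_self ht
  have hU : ∀ i, SP (fun y => u t y i) := fun i => sol_sp hs htI i
  have hUs : SPV (u t) := sp_spv hU
  have hKs := hK.smooth _ _ hUs hUs
  have hq := sol_sp_p hs htI
  have hcv : ∀ i, SP (conv (fun i y => u t y i) i) := fun i => sp_conv hU i
  have hev : (fun s => EE 0 (u s)) =ᶠ[𝓝 t] fun s => ∑ i, ∫ x in cube, u s x i ^ 2 := by
    filter_upwards [Ioo_mem_nhds ht.1 ht.2] with s hs'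
    exact EE_zero (sol_spv hs (Ioo_subset_Ico_self hs'))
  set g : Fin 3 → V → ℝ := fun i x => ν * lap (fun y => u t y i) x
      - conv (fun i y => u t y i) i x - pd i (q t) x + K (u t) (u t) x i with hgdef
  have h1 : ∀ i, HasDerivAt (fun s => ∫ x in cube, u s x i ^ 2)
      (∫ x in cube, 2 * (u t x i * g i x)) t := by
    intro i
    have key := hasDerivAt_int (F := fun s x => u s x i ^ 2)
      ((mono_Ioo (f := fun s x => u s x i) (smooth_c hs i) (by norm_cast)).pow 2) ht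
    refine key.congr_deriv ?_
    congr 1
    funext x
    have h2 := (sol_hasDerivAt hs ht i x).pow 2
    have h3 : HasDerivAt (fun s => u s x i ^ 2) _ t := h2
    rw [h3.deriv]
    simp only [hgdef]
    push_cast
    ring
  refine ((HasDerivAt.fun_sum fun i (_ : i ∈ Finset.univ) => h1 i).congr_of_eventuallyEq
    hev).congr_deriv ?_
  have h4 : ∀ i, ∫ x in cube, 2 * (u t x i * g i x)
      = 2 * (ν * (∫ x in cube, lap (fun y => u t y i) x * u t x i)
        - (∫ x in cube, u t x i * conv (fun i y => u t y i) i x)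
        - (∫ x in cube, u t x i * pd i (q t) x) + ∫ x in cube, K (u t) (u t) x i * u t x i) := by
    intro i
    have i1 : IntegrableOn (fun x => lap (fun y => u t y i) x * u t x i) cube :=
      ((hU i).lap.mul (hU i)).int
    have i2 : IntegrableOn (fun x => u t x i * conv (fun i y => u t y i) i x) cube :=
      ((hU i).mul (hcv i)).int
    have i3 : IntegrableOn (fun x => u t x i * pd i (q t) x) cube := ((hU i).mul (hq.pd i)).int
    have i4 : IntegrableOn (fun x => K (u t) (u t) x i * u t x i) cube :=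
      ((spv_sp hKs i).mul (hU i)).int
    rw [integral_const_mul]
    congr 1
    have e1 : (fun x => u t x i * g i x) = fun x => ν * (lap (fun y => u t y i) x * u t x i)
        - u t x i * conv (fun i y => u t y i) i x - u t x i * pd i (q t) x
        + K (u t) (u t) x i * u t x i := by
      funext x
      simp only [hgdef]
      ring
    rw [e1, integral_add (isub (isub (i1.const_mul ν) i2) i3) i4,
      integral_sub (isub (i1.const_mul ν) i2) i3, integral_sub (i1.const_mul ν) i2,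
      integral_const_mul]
  simp_rw [h4]
  rw [← Finset.mul_sum, Finset.sum_add_distrib, Finset.sum_sub_distrib, Finset.sum_sub_distrib,
    int_conv hU (hs.divfree t htI), int_press hU (hs.divfree t htI) hq, hK.energy _ _ hUs hUs,
    ← Finset.mul_sum]
  have h5 : ∑ i, ∫ x in cube, lap (fun y => u t y i) x * u t x i
      = -((2 * Real.pi) ^ 2 * EE 1 (u t)) := by
    rw [EE_one hUs, ← Finset.sum_neg_distrib]
    refine Finset.sum_congr rfl fun i _ => ?_
    rw [int_lap_mul (hU i) (hU i)]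
    congr 1
    refine Finset.sum_congr rfl fun j _ => ?_
    congr 1
    funext x
    rw [sq]
  rw [h5]
  ring

/-- the energy decreases -/
theorem EE_le (hν : 0 ≤ ν) (hK : LowE σ π' δ K) (hs : SolK ν T K u q) {t : ℝ} (ht : t ∈ Ico 0 T) :
    EE 0 (u t) ≤ EE 0 (u 0) := by
  have h := cmp (f := fun s => EE 0 (u s)) (f' := fun s => -(2 * ν * (2 * Real.pi) ^ 2 * EE 1 (u s)))
    (g := fun _ => 0) (g' := fun _ => 0) ht.1
    ((EE_continuousOn hs).mono fun s hs' => ⟨hs'.1, hs'.2.trans_lt ht.2⟩) continuousOn_const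
    (fun s hs' => EE_deriv hK hs ⟨hs'.1, hs'.2.trans ht.2⟩) (fun s _ => hasDerivAt_const _ _)
    (fun s _ => by
      have := EE_nonneg 1 (u s)
      have : 0 ≤ 2 * ν * (2 * Real.pi) ^ 2 * EE 1 (u s) := by positivity
      linarith)
  simp only [sub_self] at h
  linarith

end th5

section th7

variable {ν T p δ : ℝ} {u : ℝ → V → V} {q : ℝ → V → ℝ} {K : (V → V) → (V → V) → V → V}
variable {M : ℕ} {w : ℕ → ℝ}

/-- the local quantity is bounded by the energy -/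
theorem gam_energy (hν : 0 ≤ ν) {σ : ℝ} (hK : LowE σ p δ K) (hs : SolK ν T K u q) {t : ℝ}
    (ht : t ∈ Ico 0 T) (n : ℕ) :
    √(XX n 1 0 (u t)) + √(ZZ n 0 0 (u t)) ≤ 2 * √(EE 0 (u 0)) := by
  have hu := sol_spv hs ht
  have h1 := XX_le (n := n) (M := 1) (h := 0) hu
  have h2 := ZZ_le (n := n) (M := 0) (h := 0) hu (by norm_num)
  rw [mul_zero, pow_zero, one_mul] at h1 h2
  have h3 := EE_le hν hK hs ht
  have s1 := Real.sqrt_le_sqrt (h1.trans h3)
  have s2 := Real.sqrt_le_sqrt (h2.trans h3)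
  linarith

end th7

section tw3

variable {ν T σ p δ : ℝ} {u : ℝ → V → V} {q : ℝ → V → ℝ} {K : (V → V) → (V → V) → V → V}
variable {M h : ℕ} {w : ℕ → ℝ}

/-- the evolution of the energy of a mode -/
theorem un_deriv' (hK : LowE σ p δ K) (hs : SolK ν T K u q) {t : ℝ} (ht : t ∈ Ioo 0 T) (k : K3) :
    HasDerivAt (fun s => un (u s) k ^ 2)
      (-(2 * ν * (2 * Real.pi) ^ 2 * (len k ^ 2 * un (u t) k ^ 2))
        + 2 * (tk K (u t) k - tc (u t) k)) t := by
  have htI := Ioo_subset_Ico_self ht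
  have hU : ∀ i, SP (fun y => u t y i) := fun i => sol_sp hs htI i
  have hUs : SPV (u t) := sp_spv hU
  have hKs := hK.smooth _ _ hUs hUs
  have hq := sol_sp_p hs htI
  set g : Fin 3 → V → ℝ := fun i x => ν * lap (fun y => u t y i) x
      - conv (fun i y => u t y i) i x - pd i (q t) x + K (u t) (u t) x i with hgdef
  have hcv : ∀ i, SP (conv (fun i y => u t y i) i) := fun i => sp_conv hU i
  have hgc : ∀ i, Continuous (g i) := fun i =>
    ((((continuous_const.mul (hU i).lap.cont).sub (hcv i).cont).sub (hq.pd i).cont).add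
      (spv_sp hKs i).cont)
  have h1 : ∀ i, HasDerivAt (fun s => ‖fr (fun x => u s x i) k‖ ^ 2)
      (2 * (conj (fr (fun x => u t x i) k) * fr (g i) k).re) t := fun i =>
    fr_deriv (f := fun s x => u s x i) (smooth_c hs i) ht
      (fun x => sol_hasDerivAt hs ht i x) (hgc i) k
  have h2 := HasDerivAt.fun_sum (u := Finset.univ) fun i (_ : i ∈ Finset.univ) => h1 i
  have e0 : (fun s => un (u s) k ^ 2) = fun s => ∑ i, ‖fr (fun x => u s x i) k‖ ^ 2 :=
    funext fun s => un_sq _ _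
  rw [e0]
  refine h2.congr_deriv ?_
  have e1 : ∀ i, fr (g i) k = -(ν * ((2 * Real.pi) ^ 2 * len k ^ 2) : ℝ) * fr (fun x => u t x i) k
      - fr (conv (fun i y => u t y i) i) k
      - 2 * Real.pi * Complex.I * (k i : ℂ) * fr (q t) k
      + fr (fun x => K (u t) (u t) x i) k := by
    intro i
    have c1 : Continuous fun x => ν * lap (fun y => u t y i) x := continuous_const.mul (hU i).lap.cont
    have c2 : Continuous fun x => ν * lap (fun y => u t y i) x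
      - conv (fun i y => u t y i) i x := c1.sub (hcv i).cont
    have c3 : Continuous fun x => ν * lap (fun y => u t y i) x
      - conv (fun i y => u t y i) i x - pd i (q t) x := c2.sub (hq.pd i).cont
    simp only [hgdef]
    rw [fr_add c3 (spv_sp hKs i).cont, fr_sub c2 (hq.pd i).cont, fr_sub c1 (hcv i).cont]
    rw [fr_smul, fr_lap (hU i), fr_pd' hq]
    push_cast
    ring
  have e3 := sum_k_fr hUs (hs.divfree t htI) k
  have e4 : ∀ i, (conj (fr (fun x => u t x i) k) * fr (g i) k).re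
      = -(ν * ((2 * Real.pi) ^ 2 * len k ^ 2)) * ‖fr (fun x => u t x i) k‖ ^ 2
        - (2 * Real.pi * Complex.I * fr (q t) k
          * conj ((k i : ℂ) * fr (fun x => u t x i) k)).re
        + (conj (fr (fun x => u t x i) k) * fr (fun x => K (u t) (u t) x i) k).re
        - (conj (fr (fun x => u t x i) k) * fr (conv (fun i y => u t y i) i) k).re := by
    intro i
    have e5 : conj (fr (fun x => u t x i) k) * fr (g i) k
        = ((-(ν * ((2 * Real.pi) ^ 2 * len k ^ 2)) * ‖fr (fun x => u t x i) k‖ ^ 2 : ℝ) : ℂ)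
        - 2 * Real.pi * Complex.I * fr (q t) k
          * conj ((k i : ℂ) * fr (fun x => u t x i) k)
        + conj (fr (fun x => u t x i) k) * fr (fun x => K (u t) (u t) x i) k
        - conj (fr (fun x => u t x i) k) * fr (conv (fun i y => u t y i) i) k := by
      rw [e1, map_mul, map_intCast]
      have e6 : ((‖fr (fun x => u t x i) k‖ ^ 2 : ℝ) : ℂ)
          = fr (fun x => u t x i) k * conj (fr (fun x => u t x i) k) := by
        rw [Complex.mul_conj, Complex.normSq_eq_norm_sq]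
      push_cast at e6 ⊢
      linear_combination (ν * ((2 * Real.pi) ^ 2 * (len k : ℂ) ^ 2)) * e6
    rw [e5, Complex.sub_re, Complex.add_re, Complex.sub_re, Complex.ofReal_re]
  simp_rw [e4]
  have e7 : ∑ i, (2 * Real.pi * Complex.I * fr (q t) k
      * conj ((k i : ℂ) * fr (fun x => u t x i) k)).re = 0 := by
    rw [← Complex.re_sum, ← Finset.mul_sum, ← map_sum, e3, map_zero, mul_zero, Complex.zero_re]
  rw [← Finset.mul_sum, Finset.sum_sub_distrib, Finset.sum_add_distrib, Finset.sum_sub_distrib, e7,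
    ← Finset.mul_sum, ← un_sq]
  unfold tk tc
  ring

theorem YY_deriv' (hw : Wg M w) (hK : LowE σ p δ K) (hs : SolK ν T K u q)
    {t : ℝ} (ht : t ∈ Ioo 0 T) (m : ℕ) :
    HasDerivAt (fun s => YY w m 0 (u s)) (-(2 * ν * (2 * Real.pi) ^ 2 * YY w m 1 (u t))
      - 2 * ∑ n ∈ Finset.range m, (w (n + 1) - w n)
        * ∑ k ∈ Bl (n + 1), (tk K (u t) k - tc (u t) k)) t := by
  have htI := Ioo_subset_Ico_self ht
  have hev : (fun s => YY w m 0 (u s)) =ᶠ[𝓝 t] fun s => w m * EE 0 (u s)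
      - ∑ n ∈ Finset.range m, (w (n + 1) - w n) * ∑ k ∈ Bl (n + 1), un (u s) k ^ 2 := by
    filter_upwards [Ioo_mem_nhds ht.1 ht.2] with s hs'
    exact YY_eq hw (sol_spv hs (Ioo_subset_Ico_self hs')) m
  have h1 := (EE_deriv hK hs ht).const_mul (w m)
  have h2 : HasDerivAt (fun s => ∑ n ∈ Finset.range m, (w (n + 1) - w n)
      * ∑ k ∈ Bl (n + 1), un (u s) k ^ 2) _ t :=
    HasDerivAt.fun_sum fun n _ => (HasDerivAt.fun_sum fun k (_ : k ∈ Bl (n + 1)) =>
      un_deriv' hK hs ht k).const_mul (w (n + 1) - w n)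
  refine ((h1.sub h2).congr_of_eventuallyEq hev).congr_deriv ?_
  rw [YY_one_eq hw (sol_spv hs htI) m]
  set X : ℕ → ℝ := fun n => ∑ k ∈ Bl (n + 1), len k ^ 2 * un (u t) k ^ 2 with hX
  set Z : ℕ → ℝ := fun n => ∑ k ∈ Bl (n + 1), (tk K (u t) k - tc (u t) k) with hZ
  have e1 : ∀ n, ∑ k ∈ Bl (n + 1), (-(2 * ν * (2 * Real.pi) ^ 2 * (len k ^ 2 * un (u t) k ^ 2))
        + 2 * (tk K (u t) k - tc (u t) k))
      = -(2 * ν * (2 * Real.pi) ^ 2) * X n + 2 * Z n := by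
    intro n
    simp only [hX, hZ]
    rw [Finset.mul_sum, Finset.mul_sum, ← Finset.sum_add_distrib]
    exact Finset.sum_congr rfl fun k _ => by ring
  simp_rw [e1]
  have e2 : ∑ n ∈ Finset.range m, (w (n + 1) - w n)
      * (-(2 * ν * (2 * Real.pi) ^ 2) * X n + 2 * Z n)
      = -(2 * ν * (2 * Real.pi) ^ 2) * (∑ n ∈ Finset.range m, (w (n + 1) - w n) * X n)
        + 2 * ∑ n ∈ Finset.range m, (w (n + 1) - w n) * Z n := by
    rw [Finset.mul_sum, Finset.mul_sum, ← Finset.sum_add_distrib]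
    exact Finset.sum_congr rfl fun n _ => by ring
  rw [e2]
  ring

/-- the estimate of the total flux -/
theorem flux_tot {v : V → V} (hK : LowE 2 p δ K) (hp0 : 0 ≤ p) (hδ : 0 ≤ δ) (hv : SPV v)
    (hdiv : ∀ x, ∑ i, pd i (fun y => v y i) x = 0) (n M : ℕ) {Γ G : ℝ}
    (hΓ : √(XX (n + 1) 1 0 v) + √(ZZ (n + 1) 0 0 v) ≤ Γ)
    (hG : S1 (n + 1) v / 2 ^ (n + 1) ≤ G) :
    |∑ k ∈ Bl (n + 1), (tk K v k - tc v k)| ≤ (δ * 5 ^ (2 * M + 6) * LL (n + 1) ^ p * Γ / 2
      + 100 * 4 ^ M * G) * (XX (n + 1) M 1 v + ZZ (n + 1) 0 1 v) := by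
  have hKh : LowE (2 * ((1 : ℕ) : ℝ)) p δ K := by
    rw [Nat.cast_one, mul_one]; exact hK
  have f1 := flux_le (n := n + 1) (M := M) (h := 1) hKh hp0 hδ hv (by omega)
  have f2 := nsflux hv hdiv n M
  have hX0 : 0 ≤ XX (n + 1) M 1 v := XX_nonneg
  have hZ0 : 0 ≤ ZZ (n + 1) M 1 v := ZZ_nonneg
  have hZZ : ZZ (n + 1) M 1 v ≤ ZZ (n + 1) 0 1 v := ZZ_anti hv _ (by norm_num)
  set X := XX (n + 1) M 1 v with hX
  set Z := ZZ (n + 1) 0 1 v with hZ
  have hL0 : 0 ≤ LL (n + 1) ^ p := Real.rpow_nonneg (by linarith [one_le_LL (n + 1)]) _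
  have hΓ0 : 0 ≤ Γ := le_trans (by positivity) hΓ
  have hG0 : 0 ≤ G := le_trans (div_nonneg (S1_nonneg _ _) (by positivity)) hG
  have e6 : 2 * M + 2 * 1 + 4 = 2 * M + 6 := by ring
  rw [e6] at f1
  have f3 : |∑ k ∈ Bl (n + 1), tk K v k|
      ≤ δ * 5 ^ (2 * M + 6) * LL (n + 1) ^ p * Γ * ((X + Z) / 2) := by
    refine f1.trans ?_
    refine mul_le_mul (mul_le_mul_of_nonneg_left hΓ (by positivity))
      ((sqrt_mul_sqrt_le hX0 hZ0).trans (by linarith)) (by positivity) (by positivity)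
  have f4 : |∑ k ∈ Bl (n + 1), tc v k| ≤ 100 * 4 ^ M * G * (X + Z) := by
    refine f2.trans ?_
    exact mul_le_mul_of_nonneg_right (mul_le_mul_of_nonneg_left hG (by positivity)) (by linarith)
  rw [Finset.sum_sub_distrib]
  refine (abs_sub _ _).trans ((add_le_add f3 f4).trans (le_of_eq ?_))
  ring

/-- Propagation of the weighted energies. -/
theorem prop_w' (hw : Wg M w) (hK : LowE σ p δ K) (hν : 0 ≤ ν)
    (hT : 0 < T) (hs : SolK ν T K u q) {a : ℕ → ℝ} (ha0 : ∀ n, 0 ≤ a n)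
    (ha : ∀ t ∈ Ioo 0 T, ∀ n, |∑ k ∈ Bl (n + 1), (tk K (u t) k - tc (u t) k)|
      ≤ a n * (XX (n + 1) M 1 (u t) + ZZ (n + 1) 0 1 (u t))) {n₀ : ℕ}
    (hn₀ : ∀ n ≥ n₀, (w (n + 1) - w n) * (2 * a n) * (4 ^ M + 2)
      ≤ 2 * ν * (2 * Real.pi) ^ 2 * w (n + 1)) :
    ∃ B, 0 ≤ B ∧ ∀ t ∈ Ico 0 T, ∀ m, YY w m 0 (u t) ≤ B := by
  have hc0 : ∀ n, 0 ≤ w (n + 1) - w n := fun n => sub_nonneg.2 (hw.mono n)
  set E₀ := EE 0 (u 0) with hE₀
  have hE0 : 0 ≤ E₀ := EE_nonneg 0 _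
  set A : ℕ → ℝ := fun n => (w (n + 1) - w n) * (2 * a n)
    * (2 * (4 ^ (n + 1) * E₀)) with hA
  have hA0 : ∀ n, 0 ≤ A n := fun n => by
    have := ha0 n
    have := hc0 n
    positivity
  set κ := 2 * ν * (2 * Real.pi) ^ 2 / (4 ^ M + 2) with hκ
  have h4 : (0 : ℝ) < 4 ^ M + 2 := by positivity
  have hκ0 : 0 ≤ κ := by positivity
  have key : ∀ t ∈ Ioo 0 T, ∀ m, -(2 * ν * (2 * Real.pi) ^ 2 * YY w m 1 (u t))
      - 2 * ∑ n ∈ Finset.range m, (w (n + 1) - w n)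
        * ∑ k ∈ Bl (n + 1), (tk K (u t) k - tc (u t) k)
      ≤ ∑ n ∈ Finset.range n₀, A n := by
    intro t ht m
    have htI := Ioo_subset_Ico_self ht
    have hu : SPV (u t) := sol_spv hs htI
    have h1 : ∀ n, -(2 * ((w (n + 1) - w n) * ∑ k ∈ Bl (n + 1), (tk K (u t) k - tc (u t) k)))
        ≤ κ * (w (n + 1) * (XX (n + 1) M 1 (u t) + ZZ (n + 1) 0 1 (u t)))
          + (if n < n₀ then A n else 0) := by
      intro n
      have f2 := ha t ht n
      have hX0 : 0 ≤ XX (n + 1) M 1 (u t) := XX_nonneg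
      have hZ0 : 0 ≤ ZZ (n + 1) 0 1 (u t) := ZZ_nonneg
      have g1 : XX (n + 1) M 1 (u t) ≤ 4 ^ (n + 1) * E₀ := by
        have := XX_le (n := n + 1) (M := M) (h := 1) hu
        rw [mul_one] at this
        exact this.trans (mul_le_mul_of_nonneg_left (EE_le hν hK hs htI) (by positivity))
      have g2 : ZZ (n + 1) 0 1 (u t) ≤ 4 ^ (n + 1) * E₀ := by
        have := ZZ_le (n := n + 1) (M := 0) (h := 1) hu (by omega)
        rw [mul_one] at this
        exact this.trans (mul_le_mul_of_nonneg_left (EE_le hν hK hs htI) (by positivity))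
      set X := XX (n + 1) M 1 (u t) with hX
      set Z := ZZ (n + 1) 0 1 (u t) with hZ
      have f3 : -(2 * ((w (n + 1) - w n) * ∑ k ∈ Bl (n + 1), (tk K (u t) k - tc (u t) k)))
          ≤ (w (n + 1) - w n) * (2 * a n) * (X + Z) := by
        have f4 := neg_abs_le (∑ k ∈ Bl (n + 1), (tk K (u t) k - tc (u t) k))
        have f5 := mul_le_mul_of_nonneg_left f2 (hc0 n)
        have f6 := mul_le_mul_of_nonneg_left f4 (hc0 n)
        linarith
      refine f3.trans ?_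
      have hXZ : 0 ≤ X + Z := by linarith
      by_cases hn : n < n₀
      · rw [if_pos hn]
        have g3 : (w (n + 1) - w n) * (2 * a n) * (X + Z) ≤ A n := by
          simp only [hA]
          refine mul_le_mul_of_nonneg_left (by linarith) ?_
          have := ha0 n
          have := hc0 n
          positivity
        have g4 : 0 ≤ κ * (w (n + 1) * (X + Z)) :=
          mul_nonneg hκ0 (mul_nonneg (hw.pos _).le hXZ)
        linarith
      · rw [if_neg hn, add_zero]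
        have g1 := hn₀ n (not_lt.1 hn)
        have g2 : (w (n + 1) - w n) * (2 * a n) ≤ κ * w (n + 1) := by
          rw [hκ, div_mul_eq_mul_div, le_div_iff₀ h4]
          exact g1
        calc _ ≤ κ * w (n + 1) * (X + Z) := mul_le_mul_of_nonneg_right g2 hXZ
          _ = _ := by ring
    have h2 : -(2 * ∑ n ∈ Finset.range m, (w (n + 1) - w n)
        * ∑ k ∈ Bl (n + 1), (tk K (u t) k - tc (u t) k))
        ≤ κ * ((4 ^ M + 2) * YY w m 1 (u t)) + ∑ n ∈ Finset.range n₀, A n := by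
      calc -(2 * ∑ n ∈ Finset.range m, (w (n + 1) - w n)
            * ∑ k ∈ Bl (n + 1), (tk K (u t) k - tc (u t) k))
          = ∑ n ∈ Finset.range m,
            -(2 * ((w (n + 1) - w n) * ∑ k ∈ Bl (n + 1), (tk K (u t) k - tc (u t) k))) := by
            rw [Finset.sum_neg_distrib, ← Finset.mul_sum]
        _ ≤ ∑ n ∈ Finset.range m, (κ * (w (n + 1) * (XX (n + 1) M 1 (u t) + ZZ (n + 1) 0 1 (u t)))
          + (if n < n₀ then A n else 0)) := Finset.sum_le_sum fun n _ => h1 n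
        _ = κ * ∑ n ∈ Finset.range m, w (n + 1) * (XX (n + 1) M 1 (u t) + ZZ (n + 1) 0 1 (u t))
          + ∑ n ∈ Finset.range m, (if n < n₀ then A n else 0) := by
            rw [Finset.sum_add_distrib, ← Finset.mul_sum]
        _ ≤ _ := by
            refine add_le_add (mul_le_mul_of_nonneg_left (sum_XZ_le' hw hu (by norm_num) m) hκ0) ?_
            rw [← Finset.sum_filter]
            refine Finset.sum_le_sum_of_subset_of_nonneg (fun n hn => ?_) fun n _ _ => hA0 n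
            rw [Finset.mem_filter] at hn
            exact Finset.mem_range.2 hn.2
    have h3 : κ * ((4 ^ M + 2) * YY w m 1 (u t)) = 2 * ν * (2 * Real.pi) ^ 2 * YY w m 1 (u t) := by
      rw [hκ]
      field_simp
    rw [h3] at h2
    linarith
  set A' := ∑ n ∈ Finset.range n₀, A n with hA'
  have hA'0 : 0 ≤ A' := Finset.sum_nonneg fun n _ => hA0 n
  have h00 : (0 : ℝ) ∈ Ico 0 T := ⟨le_rfl, hT⟩
  refine ⟨w 0 * (EE M (u 0) + EE 0 (u 0)) + A' * T, ?_, fun t ht m => ?_⟩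
  · have := (hw.pos 0).le
    have := EE_nonneg M (u 0)
    have := EE_nonneg 0 (u 0)
    positivity
  · have h := cmp (f := fun s => YY w m 0 (u s))
      (f' := fun s => -(2 * ν * (2 * Real.pi) ^ 2 * YY w m 1 (u s))
        - 2 * ∑ n ∈ Finset.range m, (w (n + 1) - w n)
          * ∑ k ∈ Bl (n + 1), (tk K (u s) k - tc (u s) k))
      (g := fun s => A' * s) (g' := fun _ => A') ht.1
      ((YY_continuousOn hw hs m).mono fun s hs' => ⟨hs'.1, hs'.2.trans_lt ht.2⟩) (by fun_prop)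
      (fun s hs' => YY_deriv' hw hK hs ⟨hs'.1, hs'.2.trans ht.2⟩ m)
      (fun s _ => by simpa using (hasDerivAt_id s).const_mul A')
      (fun s hs' => key s ⟨hs'.1, hs'.2.trans ht.2⟩ m)
    simp only [mul_zero, sub_zero] at h
    have h1 := YY_init hw (sol_spv hs h00) m
    have h2 : A' * t ≤ A' * T := mul_le_mul_of_nonneg_left ht.2.le hA'0
    linarith

end tw3

section tw4

variable {ν T σ p δ : ℝ} {u : ℝ → V → V} {q : ℝ → V → ℝ} {K : (V → V) → (V → V) → V → V}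
variable {M h : ℕ} {w : ℕ → ℝ} {v : V → V}

/-- all the weighted energies are bounded -/
theorem YY_bdd' (hK : LowE 2 p δ K) (hp0 : 0 ≤ p) (hp1 : p ≤ 1) (hδ : 0 ≤ δ) (hν : 0 < ν)
    (hT : 0 < T) (hs : SolK ν T K u q) (hi : ∀ t ∈ Ico 0 T, Ind3 (u t)) (s : ℕ) :
    ∃ B, 0 ≤ B ∧ ∀ t ∈ Ico 0 T, ∀ m, YY (fun n : ℕ => ((4 : ℝ) ^ s) ^ n) m 0 (u t) ≤ B := by
  have hπ : 0 < ν * (2 * Real.pi) ^ 2 := by positivity
  set G := 2 * √(EE 0 (u 0)) with hG
  have hG0 : 0 ≤ G := by positivity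
  have hGS : ∀ t ∈ Ico 0 T, ∀ n, S1 n (u t) / 2 ^ n ≤ G := fun t ht n => by
    have h1 := S1_energy (sol_spv hs ht) (hi t ht) n
    have h2 := Real.sqrt_le_sqrt (EE_le hν.le hK hs ht)
    linarith
  have hL0 : ∀ n, 0 ≤ LL n ^ p := fun n => Real.rpow_nonneg (by linarith [one_le_LL n]) _
  -- the first step
  obtain ⟨η, hη, hη1, B₁, hB₁0, hB₁⟩ : ∃ η : ℝ, 0 < η ∧ η ≤ 1 ∧ ∃ B, 0 ≤ B ∧ ∀ t ∈ Ico 0 T, ∀ m,
      YY (fun n : ℕ => ((n : ℝ) + 2) ^ η) m 0 (u t) ≤ B := by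
    set η := min 1 (ν * (2 * Real.pi) ^ 2 / (6 * (δ * 5 ^ 8 * G) + 2400 * G + 1)) with hη
    have hη0 : 0 < η := lt_min one_pos (by positivity)
    refine ⟨η, hη0, min_le_left _ _, ?_⟩
    have hη2 : η * (6 * (δ * 5 ^ 8 * G) + 2400 * G) ≤ ν * (2 * Real.pi) ^ 2 := by
      have h1 : η ≤ ν * (2 * Real.pi) ^ 2 / (6 * (δ * 5 ^ 8 * G) + 2400 * G + 1) := min_le_right _ _
      rw [le_div_iff₀ (by positivity)] at h1
      linarith
    refine prop_w' (wg1 hη0 (min_le_left _ _)) hK hν.le hT hs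
      (a := fun n => δ * 5 ^ (2 * 1 + 6) * LL (n + 1) ^ p * G / 2 + 100 * 4 ^ 1 * G)
      (fun n => by have := hL0 (n + 1); positivity)
      (fun t ht n => flux_tot hK hp0 hδ (sol_spv hs (Ioo_subset_Ico_self ht))
        (hs.divfree t (Ioo_subset_Ico_self ht)) n 1
        (gam_energy hν.le hK hs (Ioo_subset_Ico_self ht) (n + 1))
        (hGS t (Ioo_subset_Ico_self ht) (n + 1))) (n₀ := 0) fun n _ => ?_
    have h1 := diff1 hη0 (min_le_left _ _ : η ≤ 1) n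
    have h2 := LL_rpow_le hp1 (n + 1)
    have h3 : (0 : ℝ) < ((n + 1 : ℕ) + 2 : ℝ) ^ η := by positivity
    have h4 : (0 : ℝ) ≤ ((n + 1 : ℕ) + 2 : ℝ) ^ η - ((n : ℝ) + 2) ^ η :=
      sub_nonneg.2 ((wg1 hη0 (min_le_left _ _)).mono n)
    have h5 : (((n + 1 : ℕ) + 2 : ℝ) ^ η - ((n : ℝ) + 2) ^ η) * LL (n + 1) ^ p
        ≤ 2 * η * ((n + 1 : ℕ) + 2 : ℝ) ^ η := by
      calc (((n + 1 : ℕ) + 2 : ℝ) ^ η - ((n : ℝ) + 2) ^ η) * LL (n + 1) ^ p
          ≤ (η * ((n + 1 : ℕ) + 2 : ℝ) ^ η / ((n : ℝ) + 2)) * (((n + 1 : ℕ) : ℝ) + 2) :=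
            mul_le_mul h1 h2 (hL0 (n + 1)) (by positivity)
        _ ≤ (η * ((n + 1 : ℕ) + 2 : ℝ) ^ η / ((n : ℝ) + 2)) * (2 * ((n : ℝ) + 2)) := by
            apply mul_le_mul_of_nonneg_left _ (by positivity)
            push_cast
            linarith
        _ = _ := by field_simp
    have h6 : ((n + 1 : ℕ) + 2 : ℝ) ^ η - ((n : ℝ) + 2) ^ η ≤ η * ((n + 1 : ℕ) + 2 : ℝ) ^ η := by
      refine h1.trans ?_
      rw [div_le_iff₀ (by positivity)]
      have h7 : 0 ≤ η * ((n + 1 : ℕ) + 2 : ℝ) ^ η := by positivity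
      have h8 : (0 : ℝ) ≤ n := Nat.cast_nonneg n
      nlinarith
    calc (((n + 1 : ℕ) + 2 : ℝ) ^ η - ((n : ℝ) + 2) ^ η)
          * (2 * (δ * 5 ^ (2 * 1 + 6) * LL (n + 1) ^ p * G / 2 + 100 * 4 ^ 1 * G)) * (4 ^ 1 + 2)
        = ((((n + 1 : ℕ) + 2 : ℝ) ^ η - ((n : ℝ) + 2) ^ η) * LL (n + 1) ^ p)
          * (6 * (δ * 5 ^ 8 * G))
          + (((n + 1 : ℕ) + 2 : ℝ) ^ η - ((n : ℝ) + 2) ^ η) * (4800 * G) := by ring
      _ ≤ (2 * η * ((n + 1 : ℕ) + 2 : ℝ) ^ η) * (6 * (δ * 5 ^ 8 * G))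
          + (η * ((n + 1 : ℕ) + 2 : ℝ) ^ η) * (4800 * G) :=
          add_le_add (mul_le_mul_of_nonneg_right h5 (by positivity))
            (mul_le_mul_of_nonneg_right h6 (by positivity))
      _ = 2 * (η * (6 * (δ * 5 ^ 8 * G) + 2400 * G)) * ((n + 1 : ℕ) + 2 : ℝ) ^ η := by ring
      _ ≤ 2 * (ν * (2 * Real.pi) ^ 2) * ((n + 1 : ℕ) + 2 : ℝ) ^ η :=
          mul_le_mul_of_nonneg_right (by linarith) h3.le
      _ = _ := by ring
  have ht2 : Tendsto (fun n : ℕ => ((n + 1 : ℕ) : ℝ) + 2) atTop atTop :=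
    tendsto_atTop_add_const_right _ _
      (tendsto_natCast_atTop_atTop.comp (tendsto_add_atTop_nat 1))
  -- the second step
  obtain ⟨B₂, hB₂0, hB₂⟩ : ∃ B, 0 ≤ B ∧ ∀ t ∈ Ico 0 T, ∀ m,
      YY (fun n : ℕ => ((n : ℝ) + 2) ^ 3) m 0 (u t) ≤ B := by
    have hw1 := wg1 hη hη1
    have hr : ∀ n : ℕ, ((n + 1 : ℕ) + 2 : ℝ) ^ η ≤ 4 * ((n : ℝ) + 2) ^ η := fun n => by
      have h1 := rat1 hη hη1 n
      have h2 : (0 : ℝ) < ((n : ℝ) + 2) ^ η := by positivity
      linarith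
    have ht1 : Tendsto (fun n : ℕ => (((n + 1 : ℕ) : ℝ) + 2) ^ η) atTop atTop :=
      (tendsto_rpow_atTop hη).comp ht2
    have ht3 : Tendsto (fun n : ℕ => (162 * (δ * 5 ^ 10)) * √(B₁ / (((n + 1 : ℕ) : ℝ) + 2) ^ η)
        + 172800 * G / (((n + 1 : ℕ) : ℝ) + 2)) atTop (𝓝 0) := by
      have := (tend_sqrt ht1 B₁ (162 * (δ * 5 ^ 10))).add (ht2.const_div_atTop (172800 * G))
      rwa [add_zero] at this
    obtain ⟨n₀, hn₀⟩ := ev_le ht3 (c := 2 * ν * (2 * Real.pi) ^ 2) (by positivity)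
    refine prop_w' wg2 hK hν.le hT hs
      (a := fun n => δ * 5 ^ (2 * 2 + 6) * LL (n + 1) ^ p
        * (3 * √(B₁ / (((n + 1 : ℕ) : ℝ) + 2) ^ η)) / 2 + 100 * 4 ^ 2 * G)
      (fun n => by have := hL0 (n + 1); positivity)
      (fun t ht n => flux_tot hK hp0 hδ (sol_spv hs (Ioo_subset_Ico_self ht))
        (hs.divfree t (Ioo_subset_Ico_self ht)) n 2
        (gam_le hw1 hr (sol_spv hs (Ioo_subset_Ico_self ht)) (n + 1)
          (hB₁ t (Ioo_subset_Ico_self ht) (n + 1)))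
        (hGS t (Ioo_subset_Ico_self ht) (n + 1))) (n₀ := n₀) fun n hn => ?_
    have h1 := hn₀ n hn
    have h2 := LL_rpow_le hp1 (n + 1)
    have h3 : (((n + 1 : ℕ) + 2 : ℝ) ^ 3 - ((n : ℝ) + 2) ^ 3) ≤ 3 * (((n + 1 : ℕ) : ℝ) + 2) ^ 2 := by
      push_cast
      have : (0 : ℝ) ≤ n := Nat.cast_nonneg n
      nlinarith
    set y : ℝ := ((n + 1 : ℕ) : ℝ) + 2 with hy
    have hy0 : 0 < y := by positivity
    have h4 : (y ^ 3 - ((n : ℝ) + 2) ^ 3) * LL (n + 1) ^ p ≤ 3 * y ^ 3 := by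
      calc _ ≤ (3 * y ^ 2) * y := mul_le_mul h3 h2 (hL0 _) (by positivity)
        _ = _ := by ring
    set g := √(B₁ / y ^ η) with hg
    have hg0 : 0 ≤ g := Real.sqrt_nonneg _
    calc (y ^ 3 - ((n : ℝ) + 2) ^ 3)
          * (2 * (δ * 5 ^ (2 * 2 + 6) * LL (n + 1) ^ p * (3 * g) / 2 + 100 * 4 ^ 2 * G))
          * (4 ^ 2 + 2)
        = ((y ^ 3 - ((n : ℝ) + 2) ^ 3) * LL (n + 1) ^ p) * ((δ * 5 ^ 10) * 18 * 3 * g)
          + (y ^ 3 - ((n : ℝ) + 2) ^ 3) * (57600 * G) := by ring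
      _ ≤ (3 * y ^ 3) * ((δ * 5 ^ 10) * 18 * 3 * g) + (3 * y ^ 2) * (57600 * G) :=
          add_le_add (mul_le_mul_of_nonneg_right h4 (by positivity))
            (mul_le_mul_of_nonneg_right h3 (by positivity))
      _ = (162 * (δ * 5 ^ 10) * g + 172800 * G / y) * y ^ 3 := by
          field_simp
          ring
      _ ≤ _ := mul_le_mul_of_nonneg_right h1 (by positivity)
  -- the third step
  have hr2 : ∀ n : ℕ, ((n + 1 : ℕ) + 2 : ℝ) ^ 3 ≤ 4 * ((n : ℝ) + 2) ^ 3 := fun n => by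
    push_cast
    have : (0 : ℝ) ≤ n := Nat.cast_nonneg n
    nlinarith [mul_nonneg this this, mul_nonneg (mul_nonneg this this) this]
  set gN : ℕ → ℝ := fun n => G / 2 ^ ((n + 1) / 2)
    + 2 * √(B₂ / ((((n + 1) / 2 : ℕ) : ℝ) + 2) ^ 3) with hgN
  have hgN0 : ∀ n, 0 ≤ gN n := fun n => by positivity
  have hh : Tendsto (fun n : ℕ => (n + 1) / 2) atTop atTop :=
    tend_half.comp (tendsto_add_atTop_nat 1)
  have hgt : Tendsto gN atTop (𝓝 0) := by
    have h1 : Tendsto (fun n : ℕ => G / 2 ^ ((n + 1) / 2)) atTop (𝓝 0) := by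
      have : Tendsto (fun n : ℕ => (2 : ℝ) ^ n) atTop atTop :=
        tendsto_pow_atTop_atTop_of_one_lt (by norm_num)
      exact (this.comp hh).const_div_atTop G
    have h2 : Tendsto (fun n : ℕ => ((((n + 1) / 2 : ℕ) : ℝ) + 2) ^ 3) atTop atTop :=
      (tendsto_pow_atTop (by norm_num)).comp (tendsto_atTop_add_const_right _ _
        (tendsto_natCast_atTop_atTop.comp hh))
    have := h1.add (tend_sqrt h2 B₂ 2)
    rwa [add_zero] at this
  have ht4 : Tendsto (fun n : ℕ => ((δ * 5 ^ (2 * (s + 1) + 6)) * 3 * (4 ^ (s + 1) + 2))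
      * √(B₂ / (((n + 1 : ℕ) : ℝ) + 2)) + (200 * 4 ^ (s + 1) * (4 ^ (s + 1) + 2)) * gN n)
      atTop (𝓝 0) := by
    have := (tend_sqrt ht2 B₂ ((δ * 5 ^ (2 * (s + 1) + 6)) * 3 * (4 ^ (s + 1) + 2))).add
      (hgt.const_mul (200 * 4 ^ (s + 1) * (4 ^ (s + 1) + 2)))
    rwa [mul_zero, add_zero] at this
  obtain ⟨n₀, hn₀⟩ := ev_le ht4 (c := 2 * ν * (2 * Real.pi) ^ 2) (by positivity)
  refine prop_w' (wg3 s) hK hν.le hT hs
    (a := fun n => δ * 5 ^ (2 * (s + 1) + 6) * LL (n + 1) ^ p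
      * (3 * √(B₂ / (((n + 1 : ℕ) : ℝ) + 2) ^ 3)) / 2 + 100 * 4 ^ (s + 1) * gN n)
    (fun n => by have := hL0 (n + 1); have := hgN0 n; positivity)
    (fun t ht n => flux_tot hK hp0 hδ (sol_spv hs (Ioo_subset_Ico_self ht))
      (hs.divfree t (Ioo_subset_Ico_self ht)) n (s + 1)
      (gam_le wg2 hr2 (sol_spv hs (Ioo_subset_Ico_self ht)) (n + 1)
        (hB₂ t (Ioo_subset_Ico_self ht) (n + 1))) ?_) (n₀ := n₀) fun n hn => ?_
  · have htI := Ioo_subset_Ico_self ht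
    have h1 := S1_split wg2 (sol_spv hs htI) (hi t htI) (j := (n + 1) / 2) (n := n + 1) (by omega)
      (hB₂ t htI _)
    refine h1.trans ?_
    simp only [hgN]
    have h2 := Real.sqrt_le_sqrt (EE_le hν.le hK hs htI)
    have h3 : 2 * √(EE 0 (u t)) / 2 ^ ((n + 1) / 2) ≤ G / 2 ^ ((n + 1) / 2) :=
      div_le_div_of_nonneg_right (by linarith) (by positivity)
    linarith
  have h1 := hn₀ n hn
  have h2 := LL_rpow_le hp1 (n + 1)
  set y : ℝ := ((n + 1 : ℕ) : ℝ) + 2 with hy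
  have hy0 : 0 < y := by positivity
  have h3 : LL (n + 1) ^ p * √(B₂ / y ^ 3) ≤ √(B₂ / y) := by
    calc LL (n + 1) ^ p * √(B₂ / y ^ 3) ≤ y * √(B₂ / y ^ 3) :=
          mul_le_mul_of_nonneg_right h2 (Real.sqrt_nonneg _)
      _ = √(y ^ 2 * (B₂ / y ^ 3)) := by rw [Real.sqrt_mul (sq_nonneg _), Real.sqrt_sq hy0.le]
      _ = √(B₂ / y) := by
          congr 1
          field_simp
  have h4 : ((4 : ℝ) ^ s) ^ (n + 1) - (4 ^ s) ^ n ≤ (4 ^ s) ^ (n + 1) := by
    have : (0 : ℝ) < (4 ^ s) ^ n := by positivity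
    linarith
  have hgn := hgN0 n
  calc (((4 : ℝ) ^ s) ^ (n + 1) - (4 ^ s) ^ n)
        * (2 * (δ * 5 ^ (2 * (s + 1) + 6) * LL (n + 1) ^ p * (3 * √(B₂ / y ^ 3)) / 2
          + 100 * 4 ^ (s + 1) * gN n)) * (4 ^ (s + 1) + 2)
      = (((4 : ℝ) ^ s) ^ (n + 1) - (4 ^ s) ^ n) * ((δ * 5 ^ (2 * (s + 1) + 6)) * 3 *
        (4 ^ (s + 1) + 2) * (LL (n + 1) ^ p * √(B₂ / y ^ 3))
          + (200 * 4 ^ (s + 1) * (4 ^ (s + 1) + 2)) * gN n) := by ring
    _ ≤ (4 ^ s) ^ (n + 1) * ((δ * 5 ^ (2 * (s + 1) + 6)) * 3 * (4 ^ (s + 1) + 2) * √(B₂ / y)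
          + (200 * 4 ^ (s + 1) * (4 ^ (s + 1) + 2)) * gN n) := by
        refine mul_le_mul h4 (add_le_add (mul_le_mul_of_nonneg_left h3 (by positivity)) le_rfl)
          ?_ (by positivity)
        have := hL0 (n + 1)
        positivity
    _ ≤ (4 ^ s) ^ (n + 1) * (2 * ν * (2 * Real.pi) ^ 2) :=
        mul_le_mul_of_nonneg_left h1 (by positivity)
    _ = _ := by ring

end tw4

/-- **No breakdown** for `p ≤ 1` and solutions which do not depend on the third variable. -/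
theorem thr : Pool.Agent.N977.P.S_THR := by
  intro p δ ν T K u q hp0 hp1 hδ hν hK hs hi s
  rcases le_or_gt T 0 with hT | hT
  · exact ⟨0, fun t ht => absurd (ht.1.trans_lt ht.2) (not_lt.2 hT)⟩
  obtain ⟨B, _, hB⟩ := YY_bdd' hK hp0 hp1 hδ hν hT hs hi ⌈s⌉₊
  refine ⟨√(4 ^ ⌈s⌉₊ * B), fun t ht => ?_⟩
  exact (Hn_mono (Nat.le_ceil s) (sol_spv hs ht)).trans (Hn_of_YY (sol_spv hs ht) (hB t ht))

end Pool.Agent.N391.NSP
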